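import Mathlib
import Pool.Agent.H29.DM2

namespace Pool.Agent.Results.MP_269329_co.Disproof
open Pool.Agent.H29.DM1 Pool.Agent.H29.DM2 MeasureTheory

/-- `V(2k) = z_k` for `1 ≤ k ≤ m` (coordinates of `z` are numbered from `0`). -/
noncomputable def V {m : ℕ} (z : Fin m → ℂ) (s : ℕ) : ℂ :=
  ∑ k : Fin m, if s = 2 * (k.val + 1) then z k else 0

/-- the vertex `j(t) = -n + x(1) + … + x(t)` of the walk with list of steps `x` -/
def vert (n : ℕ) (x : List ℕ) (t : ℕ) : ℤ := -(n : ℤ) + ((x.take t).sum : ℕ)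

/-- admissible positive walks from `-n` to `n` with steps in `{2,4,…,2m}` -/
def X (m n : ℕ) : Set (List ℕ) :=
  {x | x ≠ [] ∧ (∀ s ∈ x, ∃ k, 1 ≤ k ∧ k ≤ m ∧ s = 2 * k) ∧ x.sum = 2 * n ∧
    ∀ t, 1 ≤ t → t < x.length → vert n x t ≠ n ∧ vert n x t ≠ -(n : ℤ)}

/-- the weight `h(x)`; the walk has `ν + 1 = x.length` steps -/
noncomputable def h {m : ℕ} (z : Fin m → ℂ) (n : ℕ) (x : List ℕ) : ℂ :=
  (∏ t ∈ Finset.Ico 1 x.length, ((n : ℂ) ^ 2 - (vert n x t : ℂ) ^ 2)⁻¹) * (x.map (V z)).prod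

noncomputable def A {m : ℕ} (z : Fin m → ℂ) (n : ℕ) : ℝ := ∑ᶠ x ∈ X m n, ‖h z n x‖

noncomputable def S {m : ℕ} (z : Fin m → ℂ) (n : ℕ) : ℂ := ∑ᶠ x ∈ X m n, h z n x

/-- the set of `z` with `C(z) = ∞` -/
def W (m : ℕ) : Set (Fin m → ℂ) := {z | ¬ ∃ C : ℝ, ∀ n : ℕ, A z n ≤ C * ‖S z n‖}

def L : ℕ → Finset (List ℕ)
  | 0 => {[]}
  | 1 => {[2]}
  | 2 => {[2, 2], [4]}
  | d + 3 => ((L (d + 2)).image (List.cons 2) ∪ (L (d + 1)).image (List.cons 4))
      ∪ (L d).image (List.cons 6)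

lemma sum_pos : ∀ x : List ℕ, (∀ s ∈ x, s = 2 ∨ s = 4 ∨ s = 6) → x ≠ [] → 2 ≤ x.sum
  | [], _, h => absurd rfl h
  | s :: x, h, _ => by
    have := h s (by simp)
    simp only [List.sum_cons]; omega

lemma mem_L : ∀ (d : ℕ) (x : List ℕ),
    x ∈ L d ↔ (∀ s ∈ x, s = 2 ∨ s = 4 ∨ s = 6) ∧ x.sum = 2 * d
  | 0, x => by
    simp only [L, Finset.mem_singleton]
    constructor
    · rintro rfl; simp
    · rintro ⟨h1, h2⟩
      by_contra h
      have := sum_pos x h1 h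
      omega
  | 1, x => by
    simp only [L, Finset.mem_singleton]
    constructor
    · rintro rfl; simp
    · rintro ⟨h1, h2⟩
      rcases x with _ | ⟨s, y⟩
      · simp at h2
      · have hs := h1 s (by simp)
        simp only [List.sum_cons] at h2
        have hy : y = [] := by
          by_contra h
          have := sum_pos y (fun t ht => h1 t (by simp [ht])) h
          omega
        subst hy
        simp only [List.sum_nil] at h2
        rw [show s = 2 by omega]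
  | 2, x => by
    simp only [L, Finset.mem_insert, Finset.mem_singleton]
    constructor
    · rintro (rfl | rfl) <;> simp
    · rintro ⟨h1, h2⟩
      rcases x with _ | ⟨s, y⟩
      · simp at h2
      · have hs := h1 s (by simp)
        simp only [List.sum_cons] at h2
        have hy : ∀ t ∈ y, t = 2 ∨ t = 4 ∨ t = 6 := fun t ht => h1 t (by simp [ht])
        rcases hs with rfl | rfl | rfl
        · have := (mem_L 1 y).2 ⟨hy, by omega⟩
          simp only [L, Finset.mem_singleton] at this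
          simp [this]
        · have := (mem_L 0 y).2 ⟨hy, by omega⟩
          simp only [L, Finset.mem_singleton] at this
          simp [this]
        · omega
  | d + 3, x => by
    simp only [L, Finset.mem_union, Finset.mem_image]
    constructor
    · rintro ((⟨y, hy, rfl⟩ | ⟨y, hy, rfl⟩) | ⟨y, hy, rfl⟩)
      all_goals
        rw [mem_L] at hy
        refine ⟨fun s hs => ?_, by simp only [List.sum_cons]; omega⟩
        rcases List.mem_cons.1 hs with rfl | hs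
        · omega
        · exact hy.1 s hs
    · rintro ⟨h1, h2⟩
      rcases x with _ | ⟨s, y⟩
      · simp at h2
      · have hs := h1 s (by simp)
        simp only [List.sum_cons] at h2
        have hy : ∀ t ∈ y, t = 2 ∨ t = 4 ∨ t = 6 := fun t ht => h1 t (by simp [ht])
        rcases hs with rfl | rfl | rfl
        · exact Or.inl (Or.inl ⟨y, (mem_L (d + 2) y).2 ⟨hy, by omega⟩, rfl⟩)
        · exact Or.inl (Or.inr ⟨y, (mem_L (d + 1) y).2 ⟨hy, by omega⟩, rfl⟩)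
        · exact Or.inr ⟨y, (mem_L d y).2 ⟨hy, by omega⟩, rfl⟩

lemma sum_L {R : Type*} [AddCommMonoid R] (f : List ℕ → R) (d : ℕ) :
    ∑ x ∈ L (d + 3), f x = ∑ y ∈ L (d + 2), f (2 :: y) + ∑ y ∈ L (d + 1), f (4 :: y)
      + ∑ y ∈ L d, f (6 :: y) := by
  rw [L, Finset.sum_union, Finset.sum_union, Finset.sum_image, Finset.sum_image, Finset.sum_image]
  · intro a _ b _ h; simpa using h
  · intro a _ b _ h; simpa using h
  · intro a _ b _ h; simpa using h
  · rw [Finset.disjoint_left]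
    simp only [Finset.mem_image]
    rintro _ ⟨a, -, rfl⟩ ⟨b, -, h⟩
    simp at h
  · rw [Finset.disjoint_left]
    simp only [Finset.mem_image, Finset.mem_union]
    rintro _ (⟨a, -, rfl⟩ | ⟨a, -, rfl⟩) ⟨b, -, h⟩ <;> simp at h

lemma take_lt (x : List ℕ) (hx : ∀ s ∈ x, s = 2 ∨ s = 4 ∨ s = 6) (t : ℕ) (h1 : 1 ≤ t)
    (h2 : t < x.length) : 0 < (x.take t).sum ∧ (x.take t).sum < x.sum := by
  have e := List.sum_take_add_sum_drop x t
  have a := sum_pos (x.take t) (fun s hs => hx s (List.mem_of_mem_take hs)) (by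
    intro h
    have := congrArg List.length h
    rw [List.length_take, List.length_nil] at this
    omega)
  have b := sum_pos (x.drop t) (fun s hs => hx s (List.mem_of_mem_drop hs)) (by
    intro h; have := congrArg List.length h; simp at this; omega)
  omega

lemma X_eq (n : ℕ) (hn : 1 ≤ n) : X 3 n = ↑(L n) := by
  ext x
  simp only [X, Set.mem_ofPred_eq, Finset.mem_coe, mem_L]
  constructor
  · rintro ⟨-, h1, h2, -⟩
    refine ⟨fun s hs => ?_, h2⟩
    obtain ⟨k, a, b, c⟩ := h1 s hs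
    omega
  · rintro ⟨h1, h2⟩
    refine ⟨?_, fun s hs => ?_, h2, fun t a b => ?_⟩
    · rintro rfl; simp at h2; omega
    · have := h1 s hs
      exact ⟨s / 2, by omega, by omega, by omega⟩
    · have := take_lt x h1 t a b
      simp only [vert]
      omega

lemma X_zero : X 3 0 = ∅ := by
  ext x
  simp only [X, Set.mem_ofPred_eq, Set.mem_empty_iff_false, iff_false]
  rintro ⟨h0, h1, h2, -⟩
  have := sum_pos x (fun s hs => by obtain ⟨k, a, b, c⟩ := h1 s hs; omega) h0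
  omega

/-- vertex weights, with weight `1` at the endpoint -/
noncomputable def ww (n : ℕ) (p : ℤ) : ℂ := if p = n then 1 else ((n : ℂ) ^ 2 - (p : ℂ) ^ 2)⁻¹

noncomputable def G (z : Fin 3 → ℂ) (n : ℕ) : ℤ → List ℕ → ℂ
  | _, [] => 1
  | p, s :: x => V z s * (ww n (p + s) * G z n (p + s) x)

lemma G_eq (z : Fin 3 → ℂ) (n : ℕ) : ∀ (x : List ℕ) (p : ℤ), G z n p x =
    (∏ t ∈ Finset.range x.length, ww n (p + ((x.take (t + 1)).sum : ℕ))) * (x.map (V z)).prod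
  | [], p => by simp [G]
  | s :: x, p => by
    rw [G, G_eq z n x, List.length_cons, Finset.prod_range_succ']
    have e : ∀ t, p + (((s :: x).take (t + 1 + 1)).sum : ℕ)
        = p + s + ((x.take (t + 1)).sum : ℕ) := fun t => by
      rw [List.take_succ_cons, List.sum_cons]; push_cast; ring
    have e0 : p + (((s :: x).take (0 + 1)).sum : ℕ) = p + s := by simp
    simp only [e, e0, List.map_cons, List.prod_cons]
    ring

lemma h_eq (z : Fin 3 → ℂ) (n : ℕ) (hn : 1 ≤ n) (x : List ℕ) (hx : x ∈ L n) :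
    h z n x = G z n (-(n : ℤ)) x := by
  have hx' : x ∈ X 3 n := by rw [X_eq n hn]; exact hx
  obtain ⟨h0, -, h2, h3⟩ := hx'
  rw [G_eq, h]
  congr 1
  obtain ⟨k, hk⟩ : ∃ k, x.length = k + 1 := ⟨x.length - 1, by
    have := List.length_pos_of_ne_nil h0; omega⟩
  rw [hk, Finset.prod_range_succ, Finset.prod_Ico_eq_prod_range, ← hk, List.take_length, h2]
  have : ww n (-(n : ℤ) + ((2 * n : ℕ) : ℤ)) = 1 := by
    unfold ww; rw [if_pos (by push_cast; ring)]
  rw [this, mul_one, hk, Nat.add_sub_cancel]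
  refine Finset.prod_congr rfl fun t ht => ?_
  have ht := Finset.mem_range.1 ht
  have := (h3 (1 + t) (by omega) (by omega)).1
  unfold ww
  rw [add_comm t 1]
  unfold vert at this
  rw [if_neg this]
  rfl

lemma V2 (z : Fin 3 → ℂ) : V z 2 = z 0 ∧ V z 4 = z 1 ∧ V z 6 = z 2 := by
  simp [V, Fin.sum_univ_three]

noncomputable def F (z : Fin 3 → ℂ) (n d : ℕ) : ℂ :=
  ww n (n - 2 * d) * ∑ x ∈ L d, G z n (n - 2 * d) x

noncomputable def P (z : Fin 3 → ℂ) (n d : ℕ) : ℝ :=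
  ‖ww n (n - 2 * d)‖ * ∑ x ∈ L d, ‖G z n (n - 2 * d) x‖

lemma recF (z : Fin 3 → ℂ) (n d : ℕ) :
    ∑ x ∈ L (d + 3), G z n (n - 2 * (d + 3 : ℕ)) x
      = z 0 * F z n (d + 2) + z 1 * F z n (d + 1) + z 2 * F z n d := by
  obtain ⟨v1, v2, v3⟩ := V2 z
  rw [sum_L]
  simp only [G, v1, v2, v3, F, Finset.mul_sum]
  have e1 : (n : ℤ) - 2 * (d + 3 : ℕ) + (2 : ℕ) = n - 2 * (d + 2 : ℕ) := by push_cast; ring
  have e2 : (n : ℤ) - 2 * (d + 3 : ℕ) + (4 : ℕ) = n - 2 * (d + 1 : ℕ) := by push_cast; ring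
  have e3 : (n : ℤ) - 2 * (d + 3 : ℕ) + (6 : ℕ) = n - 2 * (d : ℕ) := by push_cast; ring
  rw [e1, e2, e3]

lemma recP (z : Fin 3 → ℂ) (n d : ℕ) :
    ∑ x ∈ L (d + 3), ‖G z n (n - 2 * (d + 3 : ℕ)) x‖
      = ‖z 0‖ * P z n (d + 2) + ‖z 1‖ * P z n (d + 1) + ‖z 2‖ * P z n d := by
  obtain ⟨v1, v2, v3⟩ := V2 z
  rw [sum_L]
  simp only [G, v1, v2, v3, P, Finset.mul_sum, norm_mul]
  have e1 : (n : ℤ) - 2 * (d + 3 : ℕ) + (2 : ℕ) = n - 2 * (d + 2 : ℕ) := by push_cast; ring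
  have e2 : (n : ℤ) - 2 * (d + 3 : ℕ) + (4 : ℕ) = n - 2 * (d + 1 : ℕ) := by push_cast; ring
  have e3 : (n : ℤ) - 2 * (d + 3 : ℕ) + (6 : ℕ) = n - 2 * (d : ℕ) := by push_cast; ring
  rw [e1, e2, e3]

lemma ww_eq (n d : ℕ) (hd : 0 < d) : ww n (n - 2 * d) = (w n d : ℝ) := by
  unfold ww w
  rw [if_neg (by omega)]
  push_cast
  rw [one_div]
  congr 1
  ring

lemma bound (z : Fin 3 → ℂ) (hz1 : ‖z 0 - 1‖ ≤ 1 / 100) (hz2 : ‖z 1 - (-1)‖ ≤ 1 / 100)
    (hz3 : ‖z 2 - 1‖ ≤ 1 / 100) (j : ℕ) (hj : 1 ≤ j) :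
    ‖S z ((250 * j) ^ 3)‖ ≤ (4 * (250 * (j : ℝ)) ^ 4 / 2 ^ j) * A z ((250 * j) ^ 3)
      ∧ 0 < A z ((250 * j) ^ 3) := by
  set n := (250 * j) ^ 3 with hn
  have n3 : 250 ^ 3 ≤ n := Nat.pow_le_pow_left (by omega) 3
  obtain ⟨d, hd⟩ : ∃ d, d + 3 = n := ⟨n - 3, by omega⟩
  have e : -(n : ℤ) = n - 2 * (d + 3 : ℕ) := by rw [hd]; ring
  have hS : S z n = z 0 * F z n (d + 2) + z 1 * F z n (d + 1) + z 2 * F z n d := by
    rw [S, X_eq n (by omega), finsum_mem_coe_finset, ← recF, hd]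
    refine Finset.sum_congr rfl fun x hx => ?_
    rw [h_eq z n (by omega) x hx, e, hd]
  have hA : A z n = ‖z 0‖ * P z n (d + 2) + ‖z 1‖ * P z n (d + 1) + ‖z 2‖ * P z n d := by
    rw [A, X_eq n (by omega), finsum_mem_coe_finset, ← recP, hd]
    refine Finset.sum_congr rfl fun x hx => ?_
    rw [h_eq z n (by omega) x hx, e, hd]
  rw [hS, hA]
  refine main (z 0) (z 1) (z 2) j hj n hn (F z n) (P z n) hz1 hz2 hz3 ?_ ?_ ?_ ?_ d hd
  · intro u _
    rw [← recF, F, ww_eq n _ (by omega)]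
  · intro u hu
    rw [← recP, P, ww_eq n _ (by omega), Complex.norm_real, Real.norm_eq_abs, abs_of_nonneg]
    have : ((u + 3 : ℕ) : ℝ) < n := by exact_mod_cast hu
    unfold w
    have h2 : (0 : ℝ) < ((u + 3 : ℕ) : ℝ) := by positivity
    apply le_of_lt
    apply one_div_pos.2
    apply mul_pos <;> linarith
  · intro u _
    rw [F, P, norm_mul]
    exact mul_le_mul_of_nonneg_left (norm_sum_le _ _) (norm_nonneg _)
  · simp [P, L, G, ww]

lemma ball_sub : Metric.ball (![1, -1, 1] : Fin 3 → ℂ) (1 / 100) ⊆ W 3 := by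
  intro z hz
  rw [mem_ball_iff_norm] at hz
  have c := fun i => (norm_le_pi_norm (z - ![1, -1, 1]) i).trans hz.le
  have c0 : ‖z 0 - 1‖ ≤ 1 / 100 := by simpa using c 0
  have c1 : ‖z 1 - (-1)‖ ≤ 1 / 100 := by simpa using c 1
  have c2 : ‖z 2 - 1‖ ≤ 1 / 100 := by simpa using c 2
  rintro ⟨C, hC⟩
  have t := (tendsto_pow_const_div_const_pow_of_one_lt 4 (r := 2) (by norm_num)).const_mul
    (|C| * (4 * 250 ^ 4))
  rw [mul_zero] at t
  obtain ⟨j, hj, hj1⟩ := ((t.eventually (gt_mem_nhds one_pos)).and (Filter.eventually_ge_atTop 1)).exists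
  obtain ⟨b1, b2⟩ := bound z c0 c1 c2 j hj1
  have b3 := hC ((250 * j) ^ 3)
  have b4 : C * ‖S z ((250 * j) ^ 3)‖ ≤ |C| * ((4 * (250 * (j : ℝ)) ^ 4 / 2 ^ j) * A z ((250 * j) ^ 3)) :=
    mul_le_mul (le_abs_self C) b1 (norm_nonneg _) (abs_nonneg _)
  have b5 : |C| * ((4 * (250 * (j : ℝ)) ^ 4 / 2 ^ j) * A z ((250 * j) ^ 3))
      = (|C| * (4 * 250 ^ 4) * ((j : ℝ) ^ 4 / 2 ^ j)) * A z ((250 * j) ^ 3) := by ring
  nlinarith

theorem result :
    (∀ n, (X 3 n).Finite) ∧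
    Metric.ball (![1, -1, 1] : Fin 3 → ℂ) (1 / 100) ⊆ W 3 ∧
    0 < volume (W 3) ∧
    ¬ (∀ m, 1 ≤ m → ∀ᵐ z : Fin m → ℂ, ∃ C : ℝ, ∀ n : ℕ, A z n ≤ C * ‖S z n‖) := by
  have pos : 0 < volume (W 3) :=
    lt_of_lt_of_le (Metric.measure_ball_pos volume _ (by norm_num)) (measure_mono ball_sub)
  refine ⟨fun n => ?_, ball_sub, pos, fun hh => ?_⟩
  · rcases Nat.eq_zero_or_pos n with rfl | hn
    · rw [X_zero]; exact Set.finite_empty
    · rw [X_eq n hn]; exact Finset.finite_toSet _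
  · exact pos.ne' (ae_iff.1 (hh 3 (by norm_num)))

end Pool.Agent.Results.MP_269329_co.Disproof
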